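import Mathlib
import Pool.Agent.H42.SofThm

set_option autoImplicit false

namespace Pool.Agent.Results.MP_6908e1_al.NonSoficTwin

open Pool.Agent.H42.Sof

/-- There are countable monoids `M` and `N`, in each of which the `𝓙`-class of the identity is the
group of units, a bijection `ρ : M → N` which restricts to an isomorphism `e` of the unit groups
and satisfies `ρ (s t) = ρ s ρ t` for all `s ∈ M` and all units `t`, such that `M` is sofic and
`N` is not sofic. Moreover `N` is finitely generated and the unit group is free of rank three. -/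
theorem result : ∃ (M N : Type) (_ : Monoid M) (_ : Monoid N) (ρ : M ≃ N) (e : Mˣ ≃* Nˣ),
    JClassOneIsGroup M ∧ JClassOneIsGroup N ∧
    (∀ u : Mˣ, ρ u = e u) ∧ (∀ (s : M) (t : Mˣ), ρ (s * t) = ρ s * ρ t) ∧
    IsSofic M ∧ ¬ IsSofic N ∧
    Countable M ∧ Monoid.FG N ∧ Nonempty (Mˣ ≃* FreeGroup (Fin 3)) :=
  Pool.Agent.H42.Sof.main

end Pool.Agent.Results.MP_6908e1_al.NonSoficTwin
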